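import Pool.Agent.Lib.MP_e20aca_co.Final

/-!
For every constant `C`, a random subset of size `⌊√N⌋` of an abelian group of order `N` is, with
probability tending to one, not covering the group with at most `C √N` translates.
-/

set_option autoImplicit false

open Finset

namespace Pool.Agent.Results.MP_e20aca_co.SqrtCover

theorem result (C ε : ℝ) (hε : 0 < ε) :
    ∃ N₀ : ℕ, ∀ (G : Type) [AddCommGroup G] [Finite G], N₀ ≤ Nat.card G →
      (({A : Finset G | A.card = ⌊√(Nat.card G : ℝ)⌋₊ ∧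
          ∃ T : Finset G, (T.card : ℝ) ≤ C * √(Nat.card G : ℝ) ∧
            ∀ x : G, ∃ a ∈ A, ∃ t ∈ T, a + t = x}.ncard : ℝ)
        / ((Nat.card G).choose ⌊√(Nat.card G : ℝ)⌋₊ : ℕ)) ≤ ε := by
  classical
  obtain ⟨k₀, hk₀⟩ := Pool.Agent.Lib.Cov39.set_cover_bound (⌈2 * C⌉₊ + 1) (by omega) ε hε
  refine ⟨(k₀ + 1) ^ 2, fun G _ _ hp => ?_⟩
  have : Fintype G := Fintype.ofFinite G
  rw [Nat.card_eq_fintype_card] at hp ⊢
  set p := Fintype.card G with hpdef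
  have hs : ⌊√(p : ℝ)⌋₊ = p.sqrt := Real.nat_floor_real_sqrt_eq_nat_sqrt
  rw [hs, Set.ncard_eq_toFinset_card']
  have hk : k₀ + 1 ≤ p.sqrt := Nat.le_sqrt'.2 hp
  have h1 : p.sqrt ^ 2 ≤ p := Nat.sqrt_le' p
  have h2 : p < (p.sqrt + 1) ^ 2 := Nat.lt_succ_sqrt' p
  have h4 : (0 : ℝ) < (p.choose p.sqrt : ℕ) := by
    exact_mod_cast Nat.choose_pos (Nat.sqrt_le_self p)
  rw [div_le_iff₀ h4]
  refine hk₀ p.sqrt (by omega) G h1 (by nlinarith) _ fun A hA => ?_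
  rw [Set.mem_toFinset] at hA
  obtain ⟨h5, T, h6, h7⟩ := hA
  refine ⟨h5, T, ?_, fun x => ?_⟩
  · have h8 : √(p : ℝ) ≤ 2 * p.sqrt := by
      have h8 := Nat.lt_floor_add_one (√(p : ℝ))
      rw [hs] at h8
      have h9 : (1 : ℝ) ≤ p.sqrt := by exact_mod_cast (by omega : 1 ≤ p.sqrt)
      linarith
    have h9 : (0 : ℝ) ≤ √(p : ℝ) := by positivity
    have h10 := Nat.le_ceil (2 * C)
    have h11 : (0 : ℝ) ≤ ⌈2 * C⌉₊ := by positivity
    have h12 : (T.card : ℝ) ≤ ((⌈2 * C⌉₊ + 1) * p.sqrt : ℕ) := by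
      push_cast
      nlinarith
    exact_mod_cast h12
  · obtain ⟨a, ha, t, ht, h⟩ := h7 x
    exact ⟨t, ht, a, ha, by rw [add_comm, h]⟩

end Pool.Agent.Results.MP_e20aca_co.SqrtCover
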